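import Pool.Agent.Results.MP_0b62d6_lc.WeakExtDistrib

/-!
# Weak m-distributivity is the weak m-extension property
-/

set_option autoImplicit false

open Set Cardinal

universe u

namespace Pool.Agent.Results.MP_0b62d6_lc.Characterization

open Pool.Agent.Results.MP_0b62d6_lc.WeakExtDistrib

/-- The weak `m`-extension property, tested only on the `m`-fields of sets `F` (fields of subsets
of a set `X`, closed under unions of at most `m` members), the subalgebras `A₀` which `m`-generate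
`F`, and the isomorphisms `f` of `A₀` onto `A'` which satisfy (a'). -/
def FieldExtension (m : Cardinal.{u}) (A' : Type u) [BooleanAlgebra A'] : Prop :=
  ∀ (X : Type u) (F : BooleanSubalgebra (Set X)),
    (∀ S : Set (Set X), S ⊆ (F : Set (Set X)) → #S ≤ m → ⋃₀ S ∈ F) →
      ∀ A₀ : BooleanSubalgebra F, MGenerates m (A₀ : Set F) →
        ∀ f : BoundedLatticeHom A₀ A', Function.Bijective f → CondA m A₀ f →
          ∃ g : BoundedLatticeHom F A', IsMHom m g ∧ ∀ x : A₀, g x = f x

section Fields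

variable {m : Cardinal.{u}} {X : Type u}

lemma field_isMAlgebra (F : BooleanSubalgebra (Set X))
    (hF : ∀ S : Set (Set X), S ⊆ (F : Set (Set X)) → #S ≤ m → ⋃₀ S ∈ F) :
    IsMAlgebra m F := by
  have hlub : ∀ S : Set F, #S ≤ m → ∃ a, IsLUB S a := by
    intro S hS
    have h1 : ⋃₀ ((fun x : F => (x : Set X)) '' S) ∈ F := by
      apply hF _ _ (mk_image_le.trans hS)
      rintro _ ⟨x, _, rfl⟩
      exact x.2
    refine ⟨⟨_, h1⟩, ?_, ?_⟩
    · intro x hx
      exact subset_sUnion_of_mem (mem_image_of_mem _ hx)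
    · intro y hy
      change ⋃₀ ((fun x : F => (x : Set X)) '' S) ⊆ (y : Set X)
      apply sUnion_subset
      rintro _ ⟨x, hx, rfl⟩
      exact hy hx
  intro S hS
  refine ⟨hlub S hS, ?_⟩
  obtain ⟨b, hb⟩ := hlub (compl '' S) (mk_image_le.trans hS)
  refine ⟨bᶜ, ?_⟩
  rw [isGLB_iff_compl, compl_compl]
  exact hb

end Fields

/-- the weak extension property implies the restricted one -/
lemma fieldExtension_of_weak {m : Cardinal.{u}} {A' : Type u} [BooleanAlgebra A']
    (h : WeakExtension m A') : FieldExtension m A' := by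
  intro X F hF A₀ hgen f _ hcond
  exact h F (field_isMAlgebra F hF) A₀ hgen f hcond

section Main

variable {A : Type u} [BooleanAlgebra A] {m : Cardinal.{u}}

/-- The extension lemma, from the restricted property. -/
lemma exists_ext' (hm : ℵ₀ ≤ m) (hA : FieldExtension m A) (B : Set (Pt A))
    (hB : ∀ z : A, cyl z ⊆ B → z = ⊥) :
    ∃ g : BoundedLatticeHom (fld hm (gens B)) A, IsMHom m g ∧
      ∀ (a : A) (x : fld hm (gens B)), (x : Set {x : Pt A // x ∉ B}) = tr B (cyl a) → g x = a := by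
  classical
  have hinj : ∀ a b : A, tr B (cyl a) ⊆ tr B (cyl b) → a ≤ b := by
    intro a b hab
    have h1 : cyl (a ⊓ bᶜ) ⊆ B := by
      intro J hJ
      by_contra hJB
      rw [cyl_inf, cyl_compl] at hJ
      exact hJ.2 (@hab ⟨J, hJB⟩ hJ.1)
    have h2 := hB _ h1
    rwa [← _root_.sdiff_eq, sdiff_eq_bot_iff] at h2
  have hinj' : ∀ a b : A, tr B (cyl a) = tr B (cyl b) → a = b := fun a b h =>
    le_antisymm (hinj a b h.subset) (hinj b a h.symm.subset)
  let v : sub0 hm B → A := fun x => Classical.choose x.2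
  have hv : ∀ x : sub0 hm B, ((x : fld hm (gens B)) : Set {x : Pt A // x ∉ B}) = tr B (cyl (v x)) :=
    fun x => Classical.choose_spec x.2
  have hv' : ∀ (x : sub0 hm B) (a : A),
      ((x : fld hm (gens B)) : Set {x : Pt A // x ∉ B}) = tr B (cyl a) → v x = a := by
    intro x a hx
    exact hinj' _ _ ((hv x).symm.trans hx)
  let f : BoundedLatticeHom (sub0 hm B) A :=
    { toFun := v
      map_sup' := by
        intro x y
        apply hv'
        rw [BooleanSubalgebra.val_sup, BooleanSubalgebra.val_sup, hv x, hv y, cyl_sup]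
        rfl
      map_inf' := by
        intro x y
        apply hv'
        rw [BooleanSubalgebra.val_inf, BooleanSubalgebra.val_inf, hv x, hv y, cyl_inf]
        rfl
      map_top' := by
        apply hv'
        rw [cyl_top]
        rfl
      map_bot' := by
        apply hv'
        rw [cyl_bot]
        rfl }
  have hf : ∀ x, f x = v x := fun _ => rfl
  have hbij : Function.Bijective f := by
    constructor
    · intro x y hxy
      have h1 : v x = v y := hxy
      apply Subtype.ext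
      apply Subtype.ext
      rw [hv x, hv y, h1]
    · intro a
      exact ⟨⟨⟨tr B (cyl a), InField.basic _ ⟨a, rfl⟩⟩, ⟨a, rfl⟩⟩, hv' _ _ rfl⟩
  have hcond : CondA m (sub0 hm B) f := by
    intro S hS hglb
    refine ⟨fun _ _ => bot_le, ?_⟩
    intro z hz
    rw [le_bot_iff]
    apply hB
    intro J hJ
    by_contra hJB
    -- the trace of `[z]` is below all the traces, hence below the meet
    have h1 : (⟨tr B (cyl z), InField.basic _ ⟨z, rfl⟩⟩ : fld hm (gens B)) ∈
        lowerBounds ((fun x : sub0 hm B => (x : fld hm (gens B))) '' S) := by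
      rintro _ ⟨x, hx, rfl⟩
      intro K hK
      have h2 : z ≤ v x := hz (mem_image_of_mem _ hx)
      have h3 : K ∈ tr B (cyl (v x)) := by
        intro h4
        exact hK (K.1.1.lower h2 h4)
      rw [← hv x] at h3
      exact h3
    have h5 := hglb.2 h1
    exact @h5 ⟨J, hJB⟩ hJ
  obtain ⟨g, hg, hgf⟩ := hA {x : Pt A // x ∉ B} (fld hm (gens B))
    (fun S hS hSm => InField.union S hSm fun s hs => hS hs) (sub0 hm B)
    (sub0_generates hm B) f hbij hcond
  refine ⟨g, hg, ?_⟩
  intro a x hx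
  have h1 := hgf ⟨x, ⟨a, hx⟩⟩
  rw [hf] at h1
  have h2 := hv' ⟨x, ⟨a, hx⟩⟩ a hx
  rw [h2] at h1
  exact h1

end Main

/-- The restricted extension property implies weak `m`-distributivity. -/
theorem distrib_of_field (m : Cardinal.{u}) (hm : ℵ₀ ≤ m) (A' : Type u) [BooleanAlgebra A']
    (hA' : IsMAlgebra m A') (hext : FieldExtension m A') : WeaklyDistributive m A' := by
  classical
  intro T S hT hS a ha
  refine ⟨fun _ _ => le_top, ?_⟩
  intro b hb
  set c : A' := bᶜ with hc
  suffices hcb : c = ⊥ by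
    rw [hc, compl_eq_bot] at hcb
    exact hcb.symm.le
  -- the set `B`
  let E : T → Set (Pt A') := fun t => ⋃ s, cyl (a t s)
  let B : Set (Pt A') := cyl c ∩ ⋂ t, E t
  -- `S` is nonempty as soon as `T` is nonempty and `A'` is nontrivial
  have hB : ∀ z : A', cyl z ⊆ B → z = ⊥ := by
    intro z hz
    have h1 : ∀ t, ∃ Φ : Finset S, z ≤ Φ.sup (a t) := by
      intro t
      apply compact
      exact hz.trans (inter_subset_right.trans (iInter_subset _ t))
    choose Φ hΦ using h1
    have hzc : z ≤ c := by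
      have h2 : cyl z ⊆ ⋃ _ : PUnit.{u+1}, cyl c := by
        intro J hJ
        exact mem_iUnion.2 ⟨PUnit.unit, (hz hJ).1⟩
      obtain ⟨Ψ, hΨ⟩ := compact z _ h2
      exact hΨ.trans (Finset.sup_le fun _ _ => le_rfl)
    by_contra hz0
    have hne : ∀ t, (Φ t).Nonempty := by
      intro t
      rw [Finset.nonempty_iff_ne_empty]
      intro h3
      have := hΦ t
      rw [h3, Finset.sup_empty, le_bot_iff] at this
      exact hz0 this
    have hcard : #(range fun t => (Φ t).sup (a t)) ≤ m := mk_range_le.trans hT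
    obtain ⟨x, hx⟩ := (hA' _ hcard).2
    have hzx : z ≤ x := hx.2 (by
      rintro _ ⟨t, rfl⟩
      exact hΦ t)
    have hxb : x ≤ b := hb ⟨Φ, hne, hx⟩
    have : z ≤ b ⊓ bᶜ := le_inf (hzx.trans hxb) hzc
    rw [inf_compl_eq_bot, le_bot_iff] at this
    exact hz0 this
  have hB0 : ∀ z : A', cyl z ⊆ (∅ : Set (Pt A')) → z = ⊥ := fun z hz =>
    eq_bot_of_cyl (subset_empty_iff.1 hz)
  obtain ⟨g, hg, hga⟩ := exists_ext' hm hext B hB
  obtain ⟨g', hg', hga'⟩ := exists_ext' hm hext ∅ hB0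
  -- `E t` and `B` lie in the field
  have hE : ∀ t, InField m (range (cyl : A' → Set (Pt A'))) (E t) := by
    intro t
    have h := InField.union (m := m) (G := range (cyl : A' → Set (Pt A')))
      (range fun s => cyl (a t s)) (mk_range_le.trans hS) (by
        rintro _ ⟨s, rfl⟩
        exact InField.basic _ ⟨_, rfl⟩)
    rw [sUnion_range] at h
    exact h
  have hD : InField m (range (cyl : A' → Set (Pt A'))) (⋃ t, (E t)ᶜ) := by
    have h := InField.union (m := m) (G := range (cyl : A' → Set (Pt A')))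
      (range fun t => (E t)ᶜ) (mk_range_le.trans hT) (by
        rintro _ ⟨t, rfl⟩
        exact (hE t).compl)
    rw [sUnion_range] at h
    exact h
  -- the value at `E t` is `⊤`
  have hEt : ∀ t, g' ⟨tr ∅ (E t), tr_inField (hE t)⟩ = ⊤ := by
    intro t
    let F : S → fld hm (gens (∅ : Set (Pt A'))) := fun s => ⟨tr ∅ (cyl (a t s)),
      InField.basic _ ⟨_, rfl⟩⟩
    have h1 : #(range F) ≤ m := mk_range_le.trans hS
    have h2 : IsLUB (range F)
        (⟨tr ∅ (E t), tr_inField (hE t)⟩ : fld hm (gens (∅ : Set (Pt A')))) := by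
      rw [fld_lub_iff hm _ h1]
      ext x
      simp [tr, F, E]
    have h3 := (hg' (range F) h1).1 _ h2
    rw [← range_comp] at h3
    have h4 : (g' ∘ F) = a t := by
      funext s
      exact hga' _ _ rfl
    rw [h4] at h3
    exact h3.unique (ha t)
  -- the value at `⋃ t, (E t)ᶜ` is `⊥`
  have hDv : g' ⟨tr ∅ (⋃ t, (E t)ᶜ), tr_inField hD⟩ = ⊥ := by
    let F : T → fld hm (gens (∅ : Set (Pt A'))) := fun t => ⟨tr ∅ (E t)ᶜ,
      tr_inField (hE t).compl⟩
    have h1 : #(range F) ≤ m := mk_range_le.trans hT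
    have h2 : IsLUB (range F)
        (⟨tr ∅ (⋃ t, (E t)ᶜ), tr_inField hD⟩ : fld hm (gens (∅ : Set (Pt A')))) := by
      rw [fld_lub_iff hm _ h1]
      ext x
      simp [tr, F]
    have h3 := (hg' (range F) h1).1 _ h2
    have h4 : g' ⟨tr ∅ (⋃ t, (E t)ᶜ), tr_inField hD⟩ ≤ ⊥ := by
      apply h3.2
      rintro _ ⟨_, ⟨t, rfl⟩, rfl⟩
      have h5 : F t = (⟨tr ∅ (E t), tr_inField (hE t)⟩ : fld hm (gens (∅ : Set (Pt A'))))ᶜ := rfl
      rw [h5, map_compl', hEt t, compl_top]
    exact le_bot_iff.1 h4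
  -- comparison
  have hcE : InField m (range (cyl : A' → Set (Pt A'))) (cyl c ∩ (⋃ t, (E t)ᶜ)ᶜ) :=
    InField.inf hm (InField.basic _ ⟨_, rfl⟩) hD.compl
  have hagree := ext_agree hm B ∅ g hg hga g' hg' hga' _ hcE
  have hl : (⟨tr B (cyl c ∩ (⋃ t, (E t)ᶜ)ᶜ), tr_inField hcE⟩ : fld hm (gens B)) = ⊥ := by
    apply Subtype.ext
    ext x
    obtain ⟨J, hJ⟩ := x
    constructor
    · intro hx
      exfalso
      apply hJ
      refine ⟨hx.1, ?_⟩
      have h6 : J ∈ (⋃ t, (E t)ᶜ)ᶜ := hx.2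
      rw [compl_iUnion] at h6
      simpa using h6
    · intro hx
      exact absurd hx (notMem_empty _)
  have hr : (⟨tr ∅ (cyl c ∩ (⋃ t, (E t)ᶜ)ᶜ), tr_inField hcE⟩ : fld hm (gens (∅ : Set (Pt A')))) =
      (⟨tr ∅ (cyl c), tr_inField (InField.basic _ ⟨_, rfl⟩)⟩ : fld hm (gens (∅ : Set (Pt A')))) ⊓
      (⟨tr ∅ (⋃ t, (E t)ᶜ), tr_inField hD⟩ : fld hm (gens (∅ : Set (Pt A'))))ᶜ := rfl
  rw [hl, map_bot, hr, map_inf, map_compl', hDv, compl_bot, inf_top_eq, hga' c _ rfl] at hagree
  exact hagree.symm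


/-! ### The extension theorem -/

section Ext

variable {m : Cardinal.{u}} {A A' : Type u} [BooleanAlgebra A] [BooleanAlgebra A']
  {A₀ : BooleanSubalgebra A} {f : BoundedLatticeHom A₀ A'}

/-- the `m`-subalgebra of the product generated by the graph of `f` -/
inductive Gen (m : Cardinal.{u}) {A A' : Type u} [BooleanAlgebra A] [BooleanAlgebra A']
    {A₀ : BooleanSubalgebra A} (f : BoundedLatticeHom A₀ A') : A → A' → Prop
  | basic (a : A₀) : Gen m f (a : A) (f a)
  | compl {x : A} {y : A'} : Gen m f x y → Gen m f xᶜ yᶜ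
  | sup (I : Type u) (hI : #I ≤ m) (x : I → A) (y : I → A') (h : ∀ i, Gen m f (x i) (y i))
      (X : A) (Y : A') (hX : IsLUB (range x) X) (hY : IsLUB (range y) Y) : Gen m f X Y

/-- On the pieces `⋀ t, ⋁ s ∈ Φ t, b t s` of a suitable matrix the element `y` is the image of an
element `p` of `A₀`, and `p` agrees with `x` as far as at most `m` elements of `A₀` tell. -/
def Inv (m : Cardinal.{u}) {A A' : Type u} [BooleanAlgebra A] [BooleanAlgebra A']
    {A₀ : BooleanSubalgebra A} (f : BoundedLatticeHom A₀ A') (x : A) (y : A') : Prop :=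
  ∃ (T S : Type u) (b : T → S → A'), #T ≤ m ∧ #S ≤ m ∧ (∀ t, IsLUB (range (b t)) ⊤) ∧
    ∀ Φ : T → Finset S, ∃ (W : Set A₀) (p : A₀), #W ≤ m ∧
      (∀ d : A', (∀ t, d ≤ (Φ t).sup (b t)) → (∀ w ∈ W, d ≤ f w) ∧ d ⊓ y = d ⊓ f p) ∧
      (∀ e : A, (∀ w ∈ W, e ≤ (w : A)) → e ⊓ x = e ⊓ (p : A))

lemma inf_compl_congr {B : Type u} [BooleanAlgebra B] {d y z : B} (h : d ⊓ y = d ⊓ z) :
    d ⊓ yᶜ = d ⊓ zᶜ := by
  rw [← _root_.sdiff_eq, ← _root_.sdiff_eq, ← sdiff_inf_self_left, h, sdiff_inf_self_left]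

lemma inv_basic (a : A₀) : Inv m f (a : A) (f a) := by
  refine ⟨PEmpty, PEmpty, fun t => t.elim, by simp, by simp, fun t => t.elim, fun _ =>
    ⟨∅, a, by simp, fun d _ => ⟨fun w hw => absurd hw (notMem_empty _), rfl⟩, fun e _ => rfl⟩⟩

lemma inv_compl {x : A} {y : A'} (h : Inv m f x y) : Inv m f xᶜ yᶜ := by
  obtain ⟨T, S, b, hT, hS, hb, H⟩ := h
  refine ⟨T, S, b, hT, hS, hb, fun Φ => ?_⟩
  obtain ⟨W, p, hW, H1, H2⟩ := H Φ
  refine ⟨W, pᶜ, hW, fun d hd => ⟨(H1 d hd).1, ?_⟩, fun e he => ?_⟩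
  · rw [map_compl']
    exact inf_compl_congr (H1 d hd).2
  · rw [BooleanSubalgebra.val_compl]
    exact inf_compl_congr (H2 e he)

lemma inv_sup (hm : ℵ₀ ≤ m) (I : Type u) (hI : #I ≤ m) (x : I → A) (y : I → A')
    (h : ∀ i, Inv m f (x i) (y i)) (X : A) (Y : A') (hX : IsLUB (range x) X)
    (hY : IsLUB (range y) Y) : Inv m f X Y := by
  classical
  choose T S b hT hS hb H using h
  have hsig : ∀ U : I → Type u, (∀ i, #(U i) ≤ m) → #(Σ i, U i) ≤ m := by
    intro U hU
    rw [mk_sigma]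
    calc (Cardinal.sum fun i => #(U i)) ≤ Cardinal.sum fun _ : I => m := sum_le_sum _ _ hU
      _ = #I * m := by rw [sum_const']
      _ ≤ m := mul_le_of_le hm hI le_rfl
  have h1m : (1 : Cardinal.{u}) ≤ m := one_le_aleph0.trans hm
  let b' : (Σ i, T i) ⊕ PUnit.{u+1} → (Σ i, S i) ⊕ Option I → A' := fun t s =>
    match t, s with
    | Sum.inl ⟨i, t⟩, Sum.inl ⟨j, s⟩ => if h : j = i then b i t (h ▸ s) else ⊥
    | Sum.inl _, Sum.inr _ => ⊥
    | Sum.inr _, Sum.inl _ => ⊥
    | Sum.inr _, Sum.inr none => Yᶜ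
    | Sum.inr _, Sum.inr (some i) => y i
  have hb1 : ∀ i t s, b' (Sum.inl ⟨i, t⟩) (Sum.inl ⟨i, s⟩) = b i t s := by
    intro i t s
    simp [b']
  refine ⟨(Σ i, T i) ⊕ PUnit.{u+1}, (Σ i, S i) ⊕ Option I, b', ?_, ?_, ?_, ?_⟩
  · rw [mk_sum, lift_id, lift_id, mk_punit]
    exact add_le_of_le hm (hsig T hT) h1m
  · rw [mk_sum, lift_id, lift_id, mk_option]
    exact add_le_of_le hm (hsig S hS) (add_le_of_le hm hI h1m)
  · rintro (⟨i, t⟩ | _)
    · refine ⟨fun _ _ => le_top, fun u hu => (hb i t).2 ?_⟩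
      rintro _ ⟨s, rfl⟩
      exact hu ⟨Sum.inl ⟨i, s⟩, hb1 i t s⟩
    · refine ⟨fun _ _ => le_top, fun u hu => ?_⟩
      have h1 : Yᶜ ≤ u := hu ⟨Sum.inr none, rfl⟩
      have h2 : Y ≤ u := hY.2 (by
        rintro _ ⟨i, rfl⟩
        exact hu ⟨Sum.inr (some i), rfl⟩)
      rw [← sup_compl_eq_top (x := Y)]
      exact sup_le h2 h1
  intro Φ
  have inj1 : ∀ i, Function.Injective (fun s : S i => (Sum.inl ⟨i, s⟩ : (Σ i, S i) ⊕ Option I)) := by
    intro i s s' hss
    simpa using hss
  have inj2 : Function.Injective (fun i : I => (Sum.inr (some i) : (Σ i, S i) ⊕ Option I)) := by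
    intro i i' hii
    simpa using hii
  let Ψ : ∀ i, T i → Finset (S i) := fun i t =>
    (Φ (Sum.inl ⟨i, t⟩)).preimage _ (inj1 i).injOn
  let F : Finset I := (Φ (Sum.inr PUnit.unit)).preimage _ inj2.injOn
  choose W p hW H1 H2 using fun i => H i (Ψ i)
  refine ⟨(⋃ i, W i) ∪ range (fun i => F.sup p ⊔ (p i)ᶜ), F.sup p, ?_, ?_, ?_⟩
  · refine (mk_union_le _ _).trans (add_le_of_le hm ?_ (mk_range_le.trans hI))
    refine (mk_iUnion_le_sum_mk).trans ?_
    calc (Cardinal.sum fun i => #(W i)) ≤ Cardinal.sum fun _ : I => m := sum_le_sum _ _ hW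
      _ = #I * m := by rw [sum_const']
      _ ≤ m := mul_le_of_le hm hI le_rfl
  · intro d hd
    have hdi : ∀ i, (∀ w ∈ W i, d ≤ f w) ∧ d ⊓ y i = d ⊓ f (p i) := by
      intro i
      apply H1 i d
      intro t
      refine (hd (Sum.inl ⟨i, t⟩)).trans (Finset.sup_le ?_)
      rintro (⟨j, s⟩ | s) hs
      · by_cases hji : j = i
        · subst hji
          rw [hb1]
          exact Finset.le_sup (f := b j t) (Finset.mem_preimage.2 hs)
        · have : b' (Sum.inl ⟨i, t⟩) (Sum.inl ⟨j, s⟩) = ⊥ := by simp [b', hji]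
          rw [this]
          exact bot_le
      · exact bot_le
    have hdF : d ≤ F.sup y ⊔ Yᶜ := by
      refine (hd (Sum.inr PUnit.unit)).trans (Finset.sup_le ?_)
      rintro (s | _ | i) hs
      · exact bot_le
      · exact le_sup_right
      · exact le_sup_of_le_left (Finset.le_sup (f := y) (Finset.mem_preimage.2 hs))
    have hFY : F.sup y ≤ Y := Finset.sup_le fun i _ => hY.1 ⟨i, rfl⟩
    have e1 : d ⊓ Y = d ⊓ F.sup y := by
      apply le_antisymm
      · refine le_inf inf_le_left ?_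
        calc d ⊓ Y ≤ (F.sup y ⊔ Yᶜ) ⊓ Y := inf_le_inf_right _ hdF
          _ = F.sup y ⊓ Y := by rw [inf_sup_right, compl_inf_eq_bot, sup_bot_eq]
          _ ≤ F.sup y := inf_le_left
      · exact inf_le_inf_left _ hFY
    have e2 : d ⊓ F.sup y = d ⊓ f (F.sup p) := by
      rw [map_finset_sup, Finset.sup_inf_distrib_left, Finset.sup_inf_distrib_left]
      exact Finset.sup_congr rfl fun i _ => (hdi i).2
    have e3 := e1.trans e2
    refine ⟨?_, e3⟩
    rintro w (hw | ⟨i, rfl⟩)
    · obtain ⟨i, hi⟩ := mem_iUnion.1 hw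
      exact (hdi i).1 w hi
    · rw [map_sup, map_compl', ← himp_eq, le_himp_iff, ← (hdi i).2]
      calc d ⊓ y i ≤ d ⊓ Y := inf_le_inf_left _ (hY.1 ⟨i, rfl⟩)
        _ = d ⊓ f (F.sup p) := e3
        _ ≤ _ := inf_le_right
  · intro e he
    have hei : ∀ i, e ⊓ x i = e ⊓ (p i : A) := fun i =>
      H2 i e fun w hw => he w (Or.inl (mem_iUnion.2 ⟨i, hw⟩))
    have hep : ∀ i, e ⊓ (p i : A) ≤ ((F.sup p : A₀) : A) := by
      intro i
      have h1 := he _ (Or.inr ⟨i, rfl⟩)
      rw [BooleanSubalgebra.val_sup, BooleanSubalgebra.val_compl, ← himp_eq, le_himp_iff] at h1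
      exact h1
    apply le_antisymm
    · refine le_inf inf_le_left ?_
      rw [inf_comm, ← le_himp_iff]
      apply hX.2
      rintro _ ⟨i, rfl⟩
      rw [le_himp_iff, inf_comm, hei i]
      exact hep i
    · refine le_inf inf_le_left ?_
      have key : e ⊓ ((F.sup p : A₀) : A) ≤ X := by
        refine Finset.sup_induction (p := fun z : A₀ => e ⊓ (z : A) ≤ X) ?_ ?_ ?_
        · change e ⊓ ((⊥ : A₀) : A) ≤ X
          rw [BooleanSubalgebra.val_bot, inf_bot_eq]
          exact bot_le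
        · intro a ha c hc
          change e ⊓ ((a ⊔ c : A₀) : A) ≤ X
          rw [BooleanSubalgebra.val_sup, inf_sup_left]
          exact sup_le ha hc
        · intro i _
          rw [← hei i]
          exact inf_le_right.trans (hX.1 ⟨i, rfl⟩)
      exact key

lemma inv_of_gen (hm : ℵ₀ ≤ m) {x : A} {y : A'} (h : Gen m f x y) : Inv m f x y := by
  induction h with
  | basic a => exact inv_basic a
  | compl _ ih => exact inv_compl ih
  | sup I hI x y _ X Y hX hY ih => exact inv_sup hm I hI x y ih X Y hX hY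

lemma eq_bot_of_inv (hm : ℵ₀ ≤ m) (hW : WeaklyDistributive m A') (hf : CondA m A₀ f) {y : A'}
    (h : Inv m f ⊥ y) : y = ⊥ := by
  obtain ⟨T, S, b, hT, hS, hb, H⟩ := h
  have h1 : (⊤ : A') ≤ yᶜ := by
    apply (hW T S hT hS b hb).2
    rintro z ⟨Φ, -, hz⟩
    obtain ⟨W, p, hWm, H1, H2⟩ := H Φ
    obtain ⟨h2, h3⟩ := H1 z fun t => hz.1 ⟨t, rfl⟩
    have h4 : IsGLB ((fun x : A₀ => (x : A)) '' (insert p W)) ⊥ := by
      refine ⟨fun _ _ => bot_le, fun e he => ?_⟩
      have h5 := H2 e fun w hw => he ⟨w, Or.inr hw, rfl⟩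
      have h6 : e ≤ (p : A) := he ⟨p, Or.inl rfl, rfl⟩
      rw [inf_bot_eq, inf_eq_left.2 h6] at h5
      exact h5.symm.le
    have hcard : #(insert p W : Set A₀) ≤ m :=
      (mk_insert_le).trans (add_le_of_le hm hWm (one_le_aleph0.trans hm))
    have h7 := (hf _ hcard h4).2 (show z ⊓ y ∈ lowerBounds (f '' insert p W) by
      rintro _ ⟨w, hw | hw, rfl⟩
      · rw [hw, h3]
        exact inf_le_right
      · exact inf_le_left.trans (h2 w hw))
    rw [le_compl_iff_disjoint_right, disjoint_iff]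
    exact le_bot_iff.1 h7
  rw [top_le_iff, compl_eq_top] at h1
  exact h1

lemma Gen.sup2 (hm : ℵ₀ ≤ m) {x x' : A} {y y' : A'} (h : Gen m f x y) (h' : Gen m f x' y') :
    Gen m f (x ⊔ x') (y ⊔ y') := by
  have hc : ∀ {B : Type u} [BooleanAlgebra B] (u v : B),
      IsLUB (range fun b : ULift.{u} Bool => if b.down then u else v) (u ⊔ v) := by
    intro B _ u v
    constructor
    · rintro _ ⟨⟨b⟩, rfl⟩
      cases b
      · simp
      · simp
    · intro w hw
      have h1 : u ≤ w := hw ⟨⟨true⟩, by simp⟩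
      have h2 : v ≤ w := hw ⟨⟨false⟩, by simp⟩
      exact sup_le h1 h2
  refine Gen.sup (ULift.{u} Bool) ?_ (fun b => if b.down then x else x')
    (fun b => if b.down then y else y') ?_ _ _ (hc x x') (hc y y')
  · exact (mk_le_aleph0).trans hm
  · rintro ⟨b⟩
    cases b
    · simpa using h'
    · simpa using h

lemma Gen.inf2 (hm : ℵ₀ ≤ m) {x x' : A} {y y' : A'} (h : Gen m f x y) (h' : Gen m f x' y') :
    Gen m f (x ⊓ x') (y ⊓ y') := by
  have := (Gen.sup2 hm h.compl h'.compl).compl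
  rwa [compl_sup, compl_sup, compl_compl, compl_compl, compl_compl, compl_compl] at this

lemma Gen.unique (hm : ℵ₀ ≤ m) (hW : WeaklyDistributive m A') (hf : CondA m A₀ f) {x : A}
    {y y' : A'} (h : Gen m f x y) (h' : Gen m f x y') : y = y' := by
  have key : ∀ {y y' : A'}, Gen m f x y → Gen m f x y' → y ≤ y' := by
    intro y y' h h'
    have h1 := Gen.inf2 hm h h'.compl
    rw [inf_compl_eq_bot] at h1
    have h2 := eq_bot_of_inv hm hW hf (inv_of_gen hm h1)
    rwa [← _root_.sdiff_eq, sdiff_eq_bot_iff] at h2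
  exact le_antisymm (key h h') (key h' h)

lemma Gen.total (hm : ℵ₀ ≤ m) (hA' : IsMAlgebra m A') (hgen : MGenerates m (A₀ : Set A))
    (f : BoundedLatticeHom A₀ A') (x : A) : ∃ y, Gen m f x y := by
  classical
  let C : BooleanSubalgebra A :=
    { carrier := {x | ∃ y, Gen m f x y}
      supClosed' := by
        rintro x ⟨y, h⟩ x' ⟨y', h'⟩
        exact ⟨_, Gen.sup2 hm h h'⟩
      infClosed' := by
        rintro x ⟨y, h⟩ x' ⟨y', h'⟩
        exact ⟨_, Gen.inf2 hm h h'⟩
      compl_mem' := by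
        rintro x ⟨y, h⟩
        exact ⟨_, h.compl⟩
      bot_mem' := ⟨f ⊥, Gen.basic (f := f) ⊥⟩ }
  have hsup : ∀ S : Set A, S ⊆ C → #S ≤ m → ∀ a, IsLUB S a → a ∈ C := by
    intro S hSC hS a ha
    have h1 : ∀ s : S, ∃ y, Gen m f (s : A) y := fun s => hSC s.2
    choose y hy using h1
    obtain ⟨Y, hY⟩ := (hA' (range y) (mk_range_le.trans hS)).1
    exact ⟨Y, Gen.sup S hS (fun s => (s : A)) y hy a Y (by rwa [Subtype.range_coe]) hY⟩
  refine hgen C ?_ ?_ x
  · intro a ha
    exact ⟨f ⟨a, ha⟩, Gen.basic (f := f) ⟨a, ha⟩⟩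
  · intro S hSC hS a ha
    rcases ha with ha | ha
    · exact hsup S hSC hS a ha
    · rw [isGLB_iff_compl] at ha
      have h2 := hsup ((fun z : A => zᶜ) '' S) (by
        rintro _ ⟨s, hs, rfl⟩
        exact C.compl_mem (hSC hs)) (mk_image_le.trans hS) _ ha
      have h3 := C.compl_mem h2
      rwa [compl_compl] at h3

/-- **The extension theorem** (Matthes): weakly `m`-distributive algebras have the weak
`m`-extension property. -/
theorem weak_of_distrib (hm : ℵ₀ ≤ m) (hA' : IsMAlgebra m A') (hW : WeaklyDistributive m A') :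
    WeakExtension m A' := by
  intro A _ _ A₀ hgen f hf
  choose g hg using fun x => Gen.total hm hA' hgen f x
  have hu : ∀ {x y}, Gen m f x y → g x = y := fun {x y} h => Gen.unique hm hW hf (hg x) h
  have hcompl : ∀ x, g xᶜ = (g x)ᶜ := fun x => hu (hg x).compl
  let G : BoundedLatticeHom A A' :=
    { toFun := g
      map_sup' := fun x y => hu (Gen.sup2 hm (hg x) (hg y))
      map_inf' := fun x y => hu (Gen.inf2 hm (hg x) (hg y))
      map_top' := by
        have h1 := hu (Gen.basic (m := m) (f := f) ⊤)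
        rw [map_top] at h1
        exact h1
      map_bot' := by
        have h1 := hu (Gen.basic (m := m) (f := f) ⊥)
        rw [map_bot] at h1
        exact h1 }
  have hlub : ∀ S : Set A, #S ≤ m → ∀ a, IsLUB S a → IsLUB (g '' S) (g a) := by
    intro S hS a ha
    obtain ⟨Y, hY⟩ := (hA' (g '' S) (mk_image_le.trans hS)).1
    have h1 : Gen m f a Y := Gen.sup S hS (fun s => (s : A)) (fun s => g s) (fun s => hg s) a Y
      (by rwa [Subtype.range_coe]) (by rwa [image_eq_range] at hY)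
    rw [hu h1]
    exact hY
  refine ⟨G, fun S hS => ⟨hlub S hS, fun a ha => ?_⟩, fun x => hu (Gen.basic x)⟩
  change IsGLB (g '' S) (g a)
  rw [isGLB_iff_compl]
  rw [isGLB_iff_compl] at ha
  have h2 := hlub _ (mk_image_le.trans hS) _ ha
  rw [image_image] at h2 ⊢
  simp only [hcompl] at h2
  exact h2

end Ext

/-- Let `m` be an infinite cardinal and `A'` a Boolean `m`-algebra. The following are equivalent:
`A'` has the weak `m`-extension property; `A'` has the extension property for the `m`-fields of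
sets `F`, the subalgebras `A₀` which `m`-generate `F` and the *isomorphisms* of `A₀` onto `A'` which
satisfy (a'); `A'` is weakly `m`-distributive. -/
theorem result (m : Cardinal.{u}) (hm : ℵ₀ ≤ m) (A' : Type u) [BooleanAlgebra A']
    (hA' : IsMAlgebra m A') :
    (WeakExtension m A' ↔ WeaklyDistributive m A') ∧
      (FieldExtension m A' ↔ WeaklyDistributive m A') :=
  ⟨⟨fun h => distrib_of_field m hm A' hA' (fieldExtension_of_weak h),
      fun h => weak_of_distrib hm hA' h⟩,
    ⟨fun h => distrib_of_field m hm A' hA' h,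
      fun h => fieldExtension_of_weak (weak_of_distrib hm hA' h)⟩⟩

end Pool.Agent.Results.MP_0b62d6_lc.Characterization
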